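import Pool.Agent.Helper14.AT.Fin

/-!
Polarised rational Hodge structures with any endomorphism algebra, such that the ranks of the blocks are not in certain thin
sets and their Hodge numbers are not those of a tensor product: the Mumford-Tate group is as large as possible, and so is the
group of an `ℓ`-adic representation with the same Hodge numbers.
-/

open Matrix MH

namespace Pool.Agent.Results.MP_b8862a_ag.AlmostAllDimensions

/-- There are sets `E` and `E'` of natural numbers with at most `C X ^ (1 / 2)` and `C X ^ (2 / 3)` elements below `X` for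
every `X`, which contain no positive number `n` with a prime factor `q` such that `50 n ≤ q ^ 2`, with the following property
(`m ^ 2 - 1` and `a b (a + b) / 2` are dimensions of irreducible representations of `SL_m` and `SL_3`: the exponents cannot be
smaller).

Let `V = ℚ^n` carry a rational Hodge structure of weight `w` (given by the projections `P p` to the subspaces
`V^{p, w-p}`) polarised by the form with matrix `Q`. The blocks are the primitive idempotents `e` of the complexified
endomorphism algebra; `e V` is an irreducible constituent of `V ⊗ ℂ` over the Mumford-Tate group. Suppose that for every block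
`e` of rank at least two there is an automorphism `σ` of `ℂ` such that the Hodge numbers `h p = rank (σ (e) P p)` of the
conjugate block satisfy: they have no common divisor, or the endomorphisms of `V` are the rational numbers; they are not `1` on
an arithmetic progression and `0` elsewhere; and either `e` is self-dual, its rank is not in `E` and the polynomial
`∑ (h p) X ^ p` is not a product of two symmetric polynomials with non-negative integral coefficients and at least two terms,
or the rank of `e` is not in `E'` and the polynomial is not a product of two polynomials with non-negative integral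
coefficients and at least two terms.

(1) The Mumford-Tate group contains the group `D` of all isometries of `Q` that commute with all matrices spanning a line
stable under the Mumford-Tate group and have determinant one on all the blocks, and `D` contains all the commutators of the
Mumford-Tate group. If all the blocks are self-dual, the Mumford-Tate group consists of all the elements `g` that commute with
the endomorphisms of `V` and satisfy `Q (g u, g v) = z ^ 2 Q (u, v)`, `z = 1` if `w = 0`, with `det g = z ^ r` on every block
of rank `r`.
(2) Let `Γ` be a group of similitudes of `ℚ_ℓ^n` such that a subgroup of finite index preserves all lines of matrices stable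
under the Mumford-Tate group, such that for every automorphism `σ` of `ℂ` there is a Hodge-Tate decomposition with the same
numbers on the blocks as the conjugate by `σ` of the Hodge decomposition, and such that the theorem of Serre on abelian
representations holds. If `Γ` contains a monodromy group, with an element without scalar power on every block of rank at least
two, or if the numbers `h p` above have no common divisor and the subgroups of finite index of `Γ` are semisimple and preserve
no other lines than those stable under the Mumford-Tate group, then the tensors fixed by subgroups of finite index of `Γ` are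
exactly the tensors fixed by the Mumford-Tate group. -/
theorem result : ∃ E E' : Set ℕ,
    (∃ C : ℝ, ∀ X : ℕ, (Nat.card {n : Fin X // (n : ℕ) ∈ E} : ℝ) ≤ C * Real.sqrt X) ∧
    (∃ C : ℝ, ∀ X : ℕ, (Nat.card {n : Fin X // (n : ℕ) ∈ E'} : ℝ) ≤ C * (X : ℝ) ^ (2 / 3 : ℝ)) ∧
    (∀ n q : ℕ, 0 < n → q.Prime → q ∣ n → 50 * n ≤ q ^ 2 → n ∉ E ∧ n ∉ E') ∧
    ∀ (n : Type) [Fintype n] [DecidableEq n] (w : ℤ) (Q : Matrix n n ℚ) (S : Finset ℤ) (P : ℤ → Matrix n n ℂ),
      IsHW w Q S P →
      (∀ e, IsBlk P e → 2 ≤ e.rank → ∃ σ : ℂ ≃+* ℂ, CondP E E' w Q P e σ ∧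
        ((∀ d : ℕ, (∀ p, d ∣ (e.map σ * P p).rank) → d = 1) ∨
          ∀ A : Matrix n n ℚ, (∀ p, toC A * P p = P p * toC A) → ∃ c : ℚ, A = c • (1 : Matrix n n ℚ))) →
      (∀ g : GL n ℂ, InD Q S P (g : Matrix n n ℂ) → g ∈ MT S P) ∧
      (∀ g ∈ MT S P, ∀ h ∈ MT S P, InD Q S P ((g * h * g⁻¹ * h⁻¹ : GL n ℂ) : Matrix n n ℂ)) ∧
      ((∀ e, IsBlk P e → SelfB Q P e) → ∀ g : GL n ℂ, g ∈ MT S P ↔
        (∀ x ∈ EC P, (g : Matrix n n ℂ) * x = x * (g : Matrix n n ℂ)) ∧
        ∃ z : ℂ, (w = 0 → z = 1) ∧ (g : Matrix n n ℂ)ᵀ * toC Q * (g : Matrix n n ℂ) = z ^ 2 • toC Q ∧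
          ∀ e, IsBlk P e → ((g : Matrix n n ℂ) * e + (1 - e)).det = z ^ e.rank) ∧
      ∀ (ℓ : ℕ) [Fact ℓ.Prime] (ι : ℚ_[ℓ] →+* ℂ) (Γ : Subgroup (GL n ℚ_[ℓ])),
        IsGalA w Q S P (Γ.map (Matrix.GeneralLinearGroup.map ι)) →
        (∃ D : Subgroup (GL n ℚ), IsMonB Q S P D ∧
          D.map (Matrix.GeneralLinearGroup.map (algebraMap ℚ ℚ_[ℓ])) ≤ Γ) ∨
        ((∀ e, IsBlk P e → 2 ≤ e.rank → ∃ σ : ℂ ≃+* ℂ, CondP E E' w Q P e σ ∧
            ∀ d : ℕ, (∀ p, d ∣ (e.map σ * P p).rank) → d = 1) ∧
          IsTateN S P (Γ.map (Matrix.GeneralLinearGroup.map ι))) →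
        ∀ (a b : ℕ) (t : (Fin a ⊕ Fin b → n) → ℂ),
          IsTateTensor (Γ.map (Matrix.GeneralLinearGroup.map ι)) a b t ↔ MTfix S P a b t :=
  ⟨ExDim3, ExDim4, half_dim3, tt_dim4,
    fun _ _ hn hq hd h50 => prime_dim34 hn hq hd h50,
    fun _ _ _ _ _ _ _ H hdom => atP_main exP_dim3 Set.subset_union_left fullP_at H hdom⟩

end Pool.Agent.Results.MP_b8862a_ag.AlmostAllDimensions
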