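import Pool.Agent.Helper43.FRS.Fin

/-!
Strong symplectic Mumford-Tate pairs of weights zero and one with a semisimple standard
representation (all Albert types), with places of bad reduction and Frobenius elements: the
complete list of the dimensions, signs, signatures, toric ranks and numbers of eigenvalues of
Frobenius of the irreducible subrepresentations which force the group to contain the derived
group of the Lefschetz group.
-/

open Module MTPairs

namespace Pool.Agent.Results.MP_b8862a_ag.FrobeniusTypes

/-- Let `R` be a set of quintuples `(D, e, s, r, k)` with `0 < r`. The following are equivalent: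
every strong symplectic Mumford-Tate pair of weights `0` and `1` (the group `G` is generated by
the conjugates of one cocharacter, given by the idempotent `π`, under `G` and under a group `Γ` of
semilinear automorphisms normalising `G`), whose standard representation is semisimple, and such
that every irreducible subrepresentation `W` has a sign `e`, a place of bad reduction of toric
rank `r`, signature `s` and a Frobenius element at a place of bad reduction of rank `r` with `k`
eigenvalues on `ker N / im N`, with `(dim W, e, s, r, k)` in `R`, contains all the isometries of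
the form with Gram matrix `J` which commute with all the endomorphisms of the representation and
have determinant one on every irreducible subrepresentation; `R` contains none of the quintuples
of the exterior powers (`k = 1, 2`) and of the spin representations (`r = 2 ^ (n - 2)` and
`k = 1, 2`, or `r = 2 ^ (n - 1)` and `k = 0`), and not both `(4, 0, 1, 1, 1)` and one of
`(6, 1, 3, 2, k)`, `k = 1, 2`. -/
theorem result {K : Type*} [Field K] [IsAlgClosed K] [CharZero K]
    (R : Set (ℕ × ℤ × ℕ × ℕ × ℕ)) (hR : ∀ D e s r k, (D, e, s, r, k) ∈ R → 0 < r) :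
    (∀ (m : Type) [Fintype m] [DecidableEq m] (Γ : Subgroup (Equiv.Perm (m → K)))
      (J : Matrix m m K) (G : Subgroup (Matrix.GeneralLinearGroup m K)) (π : Matrix m m K),
      IsStrongMTPair Γ J G π → IsReductiveRep G →
      (∀ W, IsIrrSub G W → ∃ e s r k, HasSign J G W e ∧ BadAt Γ G π W r ∧
        HasSig Γ G π W s ∧ HasFrob Γ G π W r k ∧ (finrank K W, e, s, r, k) ∈ R) →
      ContainsDer J G) ↔
    (∀ n j k, 5 ≤ n → 2 ≤ j → 2 * j ≤ n → k = 1 ∨ k = 2 →
      (n.choose j, if 2 * j = n then (-1) ^ j else 0, (n - 1).choose (j - 1),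
        (n - 2).choose (j - 1), k) ∉ R) ∧
    (∀ n e r k, (e = -1 ∧ 5 ≤ n ∧ (n % 4 = 1 ∨ n % 4 = 2)) ∨
        (e = 1 ∧ 3 ≤ n ∧ (n % 4 = 0 ∨ n % 4 = 3)) ∨ (e = 0 ∧ 4 ≤ n ∧ Even n) →
      (r = 2 ^ (n - 2) ∧ (k = 1 ∨ k = 2)) ∨ (r = 2 ^ (n - 1) ∧ k = 0) →
      (2 ^ n, e, 2 ^ (n - 1), r, k) ∉ R) ∧
    ((4, 0, 1, 1, 1) ∈ R → (6, 1, 3, 2, 1) ∉ R ∧ (6, 1, 3, 2, 2) ∉ R) :=
  FR.criterionS R hR

end Pool.Agent.Results.MP_b8862a_ag.FrobeniusTypes
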