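import Pool.Agent.Helper14.TF.Fin

/-!
Polarised rational Hodge structures whose Hodge numbers are not those of a tensor product and satisfy an arithmetic
condition on the dimension and the second moment: the Mumford-Tate group is as large as possible, and so is the group of an
`ℓ`-adic representation with the same Hodge numbers. Almost all indecomposable vectors of Hodge numbers satisfy the condition.
-/

open Matrix MH

namespace Helper14.Keep.GenericHodgeNumbers

/-- There is a constant `C` with the following properties. Let us call the numbers `h p` (with the sum `n`) good for the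
weight `w` if the polynomial `∑ (h p) X ^ p` is not a product of two symmetric polynomials with non-negative integral
coefficients and at least two terms, and if `C g ^ 4 ≤ n` for the greatest common divisor `g` of `n` and
`∑ (2 p - w) ^ 2 (h p)` and neither `n + 1` nor `8 n + 1` is a square; or, instead of the last three conditions, if some `h p`
is at least two and `n` is divisible by a prime number `q` with `25 n ≤ q ^ 2`.

(1) For every weight `w ≥ 2` almost all indecomposable vectors of Hodge numbers are good: among the vectors
`(h_0, …, h_w)` with `h_p = h_(w-p)` and entries at most `N` for which the polynomial is not such a product the proportion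
of the good ones tends to one; and for even `w` so does the proportion of the good ones among all these vectors.

(2) Let `V = ℚ^n` carry a rational Hodge structure of weight `w` (given by the projections `P p` to the subspaces
`V^{p, w-p}`) polarised by the form with matrix `Q`. The blocks are the primitive idempotents `e` of the complexified
endomorphism algebra (only `e = 1` if the endomorphisms of `V` are the rational numbers). Suppose that all the blocks
are self-dual, that is, `Q (x e u, e v)` is not zero for an endomorphism `x`, and that for every block `e` of rank at least two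
there is an automorphism `σ` of `ℂ` such that the Hodge numbers `h p = rank (σ (e) P p)` of the conjugate block are good and
have no common divisor (this is not needed if the endomorphisms of `V` are the rational numbers). Then the Mumford-Tate
group of `V` consists of all the elements `g` that commute with the endomorphisms of `V` and satisfy
`Q (g u, g v) = z ^ 2 Q (u, v)`, `z = 1` if `w = 0`, with `det g = z ^ r` on every block of rank `r`.

Moreover let `Γ` be a group of similitudes of `ℚ_ℓ^n` (isometries if `w = 0`), such that a subgroup of finite index commutes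
with the endomorphisms of `V`, and such that for every automorphism `σ` of `ℂ` there is a Hodge-Tate decomposition with the
same numbers on the blocks as the conjugate by `σ` of the Hodge decomposition. If `Γ` contains a monodromy group, with an
element without scalar power on every block of rank at least two, or if the numbers `h p` above have no common divisor, `Γ` is
semisimple and its complex Tate tensors of type `(1, 1)` are fixed by the Mumford-Tate group, then the tensors of all types
fixed by subgroups of finite index of `Γ` are exactly the tensors fixed by the Mumford-Tate group. -/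
theorem result : ∃ C : ℕ,
    (∀ m w : ℕ, 1 ≤ m → (w = 2 * m ∨ w = 2 * m + 1) →
      Filter.Tendsto (fun N : ℕ =>
        (Nat.card {h : Fin (m + 1) → Fin (N + 1) // GnN C w (Finset.Icc 0 (w : ℤ)) (TF.hod w fun j => (h j : ℕ))} : ℝ) /
          (Nat.card {h : Fin (m + 1) → Fin (N + 1) // NI.Indec (w : ℤ) (TF.hod w fun j => (h j : ℕ))} : ℝ))
        Filter.atTop (nhds 1) ∧
      (w = 2 * m → Filter.Tendsto (fun N : ℕ =>
        (Nat.card {h : Fin (m + 1) → Fin (N + 1) // GnN C w (Finset.Icc 0 (w : ℤ)) (TF.hod w fun j => (h j : ℕ))} : ℝ) /
          ((N : ℝ) + 1) ^ (m + 1)) Filter.atTop (nhds 1))) ∧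
    ∀ (n : Type) [Fintype n] [DecidableEq n] (w : ℤ) (Q : Matrix n n ℚ) (S : Finset ℤ) (P : ℤ → Matrix n n ℂ),
      IsHW w Q S P → SelfDual Q P →
      (∀ e, IsBlk P e → 2 ≤ e.rank → ∃ σ : ℂ ≃+* ℂ, GnN C w S (fun p => (e.map σ * P p).rank) ∧
        ((∀ d : ℕ, (∀ p, d ∣ (e.map σ * P p).rank) → d = 1) ∨
          ∀ A : Matrix n n ℚ, (∀ p, toC A * P p = P p * toC A) → ∃ c : ℚ, A = c • (1 : Matrix n n ℚ))) →
      (∀ g : GL n ℂ, g ∈ MT S P ↔ InGw w Q P (g : Matrix n n ℂ)) ∧
      ∀ (ℓ : ℕ) [Fact ℓ.Prime] (ι : ℚ_[ℓ] →+* ℂ) (Γ : Subgroup (GL n ℚ_[ℓ])),
        IsGalSD w Q S P (Γ.map (Matrix.GeneralLinearGroup.map ι)) →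
        (∃ D : Subgroup (GL n ℚ), IsMonB Q S P D ∧
          D.map (Matrix.GeneralLinearGroup.map (algebraMap ℚ ℚ_[ℓ])) ≤ Γ) ∨
        ((∀ e, IsBlk P e → 2 ≤ e.rank → ∃ σ : ℂ ≃+* ℂ, GnN C w S (fun p => (e.map σ * P p).rank) ∧
            ∀ d : ℕ, (∀ p, d ∣ (e.map σ * P p).rank) → d = 1) ∧ SemiS Γ ∧
          ∀ t, IsTateTensor (Γ.map (Matrix.GeneralLinearGroup.map ι)) 1 1 t → MTfix S P 1 1 t) →
        ∀ (a b : ℕ) (t : (Fin a ⊕ Fin b → n) → ℂ),
          IsTateTensor (Γ.map (Matrix.GeneralLinearGroup.map ι)) a b t ↔ MTfix S P a b t := by
  obtain ⟨C, hC, core⟩ := exists_coreAll14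
  exact ⟨C, fun m w hm hw => density_gn14 C m w hm hw, fun n _ _ w Q S P H hSD hdom => tf_main hC core H hSD hdom⟩

end Helper14.Keep.GenericHodgeNumbers
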