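import Pool.Agent.Helper14.PP.Main

/-!
Polarised rational Hodge structures of any weight, all of whose blocks are self-dual, such that the rank of every block has a
large prime factor and its Hodge numbers are not those of a tensor product: the Mumford-Tate group is as large as possible, and
so is the group of an `ℓ`-adic representation with the same Hodge numbers.
-/

open Matrix MH

namespace Helper14.Keep.PrimeFactorB

/-- Let `V = ℚ^n` carry a rational Hodge structure of weight `w` (given by the projections `P p` to the subspaces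
`V^{p, w-p}`) polarised by the form with matrix `Q`. The blocks are the primitive idempotents `e` of the complexified
endomorphism algebra; `e V` is an irreducible constituent of `V ⊗ ℂ` over the Mumford-Tate group. Suppose that all the blocks
are self-dual, that is, `Q (x e u, e v)` is not zero for an endomorphism `x`. Suppose moreover that for every block `e` of
rank `r ≥ 2` there is an automorphism `σ` of `ℂ` such that the Hodge numbers `h p = rank (σ (e) P p)` of the conjugate block
satisfy:
`h p ≥ 2` for some `p`; the polynomial `∑ (h p) X ^ p` is not a product of two symmetric polynomials with non-negative integral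
coefficients and at least two terms; `r` is divisible by a prime number `q` with `25 r ≤ q ^ 2`; and the numbers `h p` have no
common divisor, or the only endomorphisms of `V` are the rational numbers. Then

(1) the Mumford-Tate group of `V` consists of all the elements `g` that commute with the endomorphisms of `V` and satisfy
`Q (g u, g v) = z ^ 2 Q (u, v)`, `z = 1` if `w = 0`, with `det g = z ^ r` on every block of rank `r`;
(2) let `Γ` be a group of similitudes of `ℚ_ℓ^n` (isometries if `w = 0`), such that a subgroup of finite index commutes with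
the endomorphisms of `V`, and such that for every automorphism `σ` of `ℂ` there is a Hodge-Tate decomposition with the same
numbers on the blocks as the conjugate by `σ` of the Hodge decomposition. If `Γ` contains a monodromy group, with an element
without scalar power on every block of rank at least two, or if the numbers `h p` above have no common divisor, `Γ` is
semisimple and its complex Tate tensors of type `(1, 1)` are fixed by the Mumford-Tate group, then the tensors of all types
fixed by subgroups of finite index of `Γ` are exactly the tensors fixed by the Mumford-Tate group. -/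
theorem result {n : Type*} [Fintype n] [DecidableEq n] (w : ℤ) (Q : Matrix n n ℚ) (S : Finset ℤ)
    (P : ℤ → Matrix n n ℂ) (H : IsHW w Q S P) (hSD : SelfDual Q P)
    (hdom : ∀ e, IsBlk P e → 2 ≤ e.rank → ∃ σ : ℂ ≃+* ℂ, PrN w e.rank (fun p => (e.map σ * P p).rank) ∧
      ((∀ d : ℕ, (∀ p, d ∣ (e.map σ * P p).rank) → d = 1) ∨
        ∀ A : Matrix n n ℚ, (∀ p, toC A * P p = P p * toC A) → ∃ c : ℚ, A = c • (1 : Matrix n n ℚ))) :
    (∀ g : GL n ℂ, g ∈ MT S P ↔ InGw w Q P (g : Matrix n n ℂ)) ∧
    ∀ (ℓ : ℕ) [Fact ℓ.Prime] (ι : ℚ_[ℓ] →+* ℂ) (Γ : Subgroup (GL n ℚ_[ℓ])),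
      IsGalSD w Q S P (Γ.map (Matrix.GeneralLinearGroup.map ι)) →
      (∃ D : Subgroup (GL n ℚ), IsMonB Q S P D ∧ D.map (Matrix.GeneralLinearGroup.map (algebraMap ℚ ℚ_[ℓ])) ≤ Γ) ∨
      ((∀ e, IsBlk P e → 2 ≤ e.rank → ∃ σ : ℂ ≃+* ℂ, PrN w e.rank (fun p => (e.map σ * P p).rank) ∧
          ∀ d : ℕ, (∀ p, d ∣ (e.map σ * P p).rank) → d = 1) ∧ SemiS Γ ∧
        ∀ t, IsTateTensor (Γ.map (Matrix.GeneralLinearGroup.map ι)) 1 1 t → MTfix S P 1 1 t) →
      ∀ (a b : ℕ) (t : (Fin a ⊕ Fin b → n) → ℂ),
        IsTateTensor (Γ.map (Matrix.GeneralLinearGroup.map ι)) a b t ↔ MTfix S P a b t := by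
  have h0 : ∀ e, IsBlk P e → e.rank ≠ 1 → 2 ≤ e.rank := by
    intro e he hr
    have h1 : e.rank ≠ 0 := by
      intro h
      obtain ⟨r, W, V, hVW, hWV⟩ := exists_coord48 he.idem
      have h2 : e.rank = r := _root_.MH.blk_rank he hVW hWV
      apply he.ne
      rw [← hWV]
      have h3 : r = 0 := by omega
      subst h3
      ext i j
      simp [Matrix.mul_apply]
    omega
  have hty : ∀ f, IsBlk P f → 2 ≤ f.rank → TyBN Q S P f :=
    fun f hf hf2 => H.tyBN_prime hSD (fun e he hr => hdom e he (h0 e he hr)) hf hf2
  refine ⟨H.MT_iff_self14 hty hSD, fun ℓ _ ι Γ G hAB => (pp_main ι H hSD hty).2 Γ G ?_⟩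
  rcases hAB with ⟨D, hD, hle⟩ | ⟨hg, hss, h11⟩
  · refine Or.inl ⟨D, hD, ?_⟩
    refine le_trans (le_of_eq ?_) (Subgroup.map_mono hle)
    rw [mapC, Subgroup.map_map]
    congr 1
    ext g i j
    simp [Matrix.GeneralLinearGroup.map_apply]
  · refine Or.inr ⟨fun e he hr => ?_, hss, h11⟩
    obtain ⟨σ, hN, hd⟩ := hg e he (h0 e he hr)
    exact ⟨σ, hN.crW (h0 e he hr), hd⟩

end Helper14.Keep.PrimeFactorB
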