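import Pool.Agent.Helper14.PF.Fin

/-!
Polarised rational Hodge structures of any weight with only scalar endomorphisms whose dimension has a large prime factor
and whose Hodge numbers are not those of a tensor product: the Mumford-Tate group is as large as possible, and so is the
group of an `ℓ`-adic representation with the same Hodge numbers.
-/

open Matrix MH

namespace Helper14.Keep.PrimeFactorQ

/-- Let `V = ℚ^n` carry a rational Hodge structure of weight `w` (given by the projections `P p` to the subspaces
`V^{p, w-p}`) polarised by the form with matrix `Q`, whose only endomorphisms are the rational numbers. Suppose that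
`n = dim V` is divisible by a prime number `q` with `25 n ≤ q ^ 2`, that some Hodge number is at least two, and that the
Hodge numbers are not those of a tensor product of two Hodge structures with at least two nonzero Hodge numbers each (that is,
the polynomial `∑ h^{p, w-p} X^p` is not a product of two symmetric polynomials with non-negative integral coefficients and
at least two terms). Then

(1) the Mumford-Tate group of `V` is the group of all similitudes of `Q` if `w` is odd; if `w` is even, it consists of the
products of the isometries of determinant one with the scalars (only of these isometries if `w = 0`);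
(2) let `Γ` be a group of similitudes of `ℚ_ℓ^n` (isometries if `w = 0`) with a Hodge-Tate decomposition of the same ranks.
If `Γ` contains a monodromy group, or if the Hodge numbers have no common divisor, `Γ` is semisimple and its complex Tate
tensors of type `(1, 1)` are fixed by the Mumford-Tate group, then the tensors of all types fixed by subgroups of finite index
of `Γ` are exactly the tensors fixed by the Mumford-Tate group. -/
theorem result {n : Type*} [Fintype n] [DecidableEq n] (w : ℤ) (Q : Matrix n n ℚ) (S : Finset ℤ)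
    (P : ℤ → Matrix n n ℂ) (H : IsHW w Q S P)
    (hEnd : ∀ A : Matrix n n ℚ, (∀ p, toC A * P p = P p * toC A) → ∃ c : ℚ, A = c • (1 : Matrix n n ℚ))
    (hI : NI.Indec w (fun p => (P p).rank)) (h2 : ∃ p, 2 ≤ (P p).rank)
    (q : ℕ) (hq : q.Prime) (hd : q ∣ Fintype.card n) (h25 : 25 * Fintype.card n ≤ q ^ 2) :
    (∀ g : GL n ℂ, g ∈ MT S P ↔ ∃ z : ℂ, (w = 0 → z = 1) ∧
      (g : Matrix n n ℂ)ᵀ * toC Q * (g : Matrix n n ℂ) = z ^ 2 • toC Q ∧
        (Even w → (g : Matrix n n ℂ).det = z ^ Fintype.card n)) ∧
    ∀ (ℓ : ℕ) [Fact ℓ.Prime] (ι : ℚ_[ℓ] →+* ℂ) (Γ : Subgroup (GL n ℚ_[ℓ])) (R : ℤ → Matrix n n ℂ),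
      IsGalP w Q S P (Γ.map (Matrix.GeneralLinearGroup.map ι)) R →
      (∃ D : Subgroup (GL n ℚ), IsMon Q S P D ∧ D.map (Matrix.GeneralLinearGroup.map (algebraMap ℚ ℚ_[ℓ])) ≤ Γ) ∨
      ((∀ d : ℕ, (∀ p, d ∣ (P p).rank) → d = 1) ∧ SemiS Γ ∧
        ∀ t, IsTateTensor (Γ.map (Matrix.GeneralLinearGroup.map ι)) 1 1 t → MTfix S P 1 1 t) →
      ∀ (a b : ℕ) (t : (Fin a ⊕ Fin b → n) → ℂ),
        IsTateTensor (Γ.map (Matrix.GeneralLinearGroup.map ι)) a b t ↔ MTfix S P a b t := by
  refine ⟨fun g => H.MT_prime hEnd hI h2 hq hd h25 g, fun ℓ _ ι Γ R G hG a b t =>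
    H.tate_prime hEnd hI h2 hq hd h25 G ?_ a b t⟩
  rcases hG with ⟨D, hD, hDΓ⟩ | ⟨hgcd, hss, h11⟩
  · refine Or.inl ⟨D, hD, ?_⟩
    refine le_trans (le_of_eq ?_) (Subgroup.map_mono hDΓ)
    rw [mapC, Subgroup.map_map]
    congr 1
    ext g i j
    simp [Matrix.GeneralLinearGroup.map_apply]
  · exact Or.inr ⟨hgcd, vIrr_of_potIrr ι (potIrr_of_t11 ι hss H hEnd h11)⟩

end Helper14.Keep.PrimeFactorQ
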