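import Pool.Agent.Helper14.PX.Fin

/-!
Polarised rational Hodge structures whose dimension is not in a set with `O(√X)` elements below `X` and whose Hodge numbers
are not those of a tensor product: the Mumford-Tate group is as large as possible, and so is the group of an `ℓ`-adic
representation with the same Hodge numbers.
-/

open Matrix MH

namespace Helper14.Keep.SelfDualDimensions

/-- There is a set `E` of natural numbers with at most `C X ^ (1 / 2)` elements below `X` for every `X`, which contains no
positive number `n` with a prime factor `q` such that `25 n ≤ q ^ 2`, with the following property.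

Let `V = ℚ^n` carry a rational Hodge structure of weight `w` (given by the projections `P p` to the subspaces
`V^{p, w-p}`) polarised by the form with matrix `Q`. The blocks are the primitive idempotents `e` of the complexified
endomorphism algebra (only `e = 1` if the endomorphisms of `V` are the rational numbers); `e V` is an irreducible constituent
of `V ⊗ ℂ` over the Mumford-Tate group. Suppose that all the blocks are self-dual, that is, `Q (x e u, e v)` is not zero for an
endomorphism `x`, and that for every block `e` of rank at least two the rank is not in `E` and there is an automorphism `σ` of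
`ℂ` such that the Hodge numbers `h p = rank (σ (e) P p)` of the conjugate block satisfy: `h p ≥ 2` for some `p`; the polynomial
`∑ (h p) X ^ p` is not a product of two symmetric polynomials with non-negative integral coefficients and at least two terms;
and the `h p` have no common divisor (this last condition is not needed if the endomorphisms of `V` are the rational numbers).
Then the Mumford-Tate group of `V` consists of all the elements `g` that commute with the endomorphisms of `V` and satisfy
`Q (g u, g v) = z ^ 2 Q (u, v)`, `z = 1` if `w = 0`, with `det g = z ^ r` on every block of rank `r`.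

Moreover let `Γ` be a group of similitudes of `ℚ_ℓ^n` (isometries if `w = 0`), such that a subgroup of finite index commutes
with the endomorphisms of `V`, and such that for every automorphism `σ` of `ℂ` there is a Hodge-Tate decomposition with the
same numbers on the blocks as the conjugate by `σ` of the Hodge decomposition. If `Γ` contains a monodromy group, with an
element without scalar power on every block of rank at least two, or if the numbers `h p` above have no common divisor, `Γ` is
semisimple and its complex Tate tensors of type `(1, 1)` are fixed by the Mumford-Tate group, then the tensors of all types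
fixed by subgroups of finite index of `Γ` are exactly the tensors fixed by the Mumford-Tate group. -/
theorem result : ∃ E : Set ℕ,
    (∃ C : ℝ, ∀ X : ℕ, (Nat.card {n : Fin X // (n : ℕ) ∈ E} : ℝ) ≤ C * Real.sqrt X) ∧
    (∀ n q : ℕ, 0 < n → q.Prime → q ∣ n → 25 * n ≤ q ^ 2 → n ∉ E) ∧
    ∀ (n : Type) [Fintype n] [DecidableEq n] (w : ℤ) (Q : Matrix n n ℚ) (S : Finset ℤ) (P : ℤ → Matrix n n ℂ),
      IsHW w Q S P → SelfDual Q P →
      (∀ e, IsBlk P e → 2 ≤ e.rank → e.rank ∉ E ∧ ∃ σ : ℂ ≃+* ℂ, NI.Indec w (fun p => (e.map σ * P p).rank) ∧
        (∃ p, 2 ≤ (e.map σ * P p).rank) ∧ ((∀ d : ℕ, (∀ p, d ∣ (e.map σ * P p).rank) → d = 1) ∨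
          ∀ A : Matrix n n ℚ, (∀ p, toC A * P p = P p * toC A) → ∃ c : ℚ, A = c • (1 : Matrix n n ℚ))) →
      (∀ g : GL n ℂ, g ∈ MT S P ↔ InGw w Q P (g : Matrix n n ℂ)) ∧
      ∀ (ℓ : ℕ) [Fact ℓ.Prime] (ι : ℚ_[ℓ] →+* ℂ) (Γ : Subgroup (GL n ℚ_[ℓ])),
        IsGalSD w Q S P (Γ.map (Matrix.GeneralLinearGroup.map ι)) →
        (∃ D : Subgroup (GL n ℚ), IsMonB Q S P D ∧
          D.map (Matrix.GeneralLinearGroup.map (algebraMap ℚ ℚ_[ℓ])) ≤ Γ) ∨
        ((∀ e, IsBlk P e → 2 ≤ e.rank → ∃ σ : ℂ ≃+* ℂ, NI.Indec w (fun p => (e.map σ * P p).rank) ∧
            (∃ p, 2 ≤ (e.map σ * P p).rank) ∧ ∀ d : ℕ, (∀ p, d ∣ (e.map σ * P p).rank) → d = 1) ∧ SemiS Γ ∧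
          ∀ t, IsTateTensor (Γ.map (Matrix.GeneralLinearGroup.map ι)) 1 1 t → MTfix S P 1 1 t) →
        ∀ (a b : ℕ) (t : (Fin a ⊕ Fin b → n) → ℂ),
          IsTateTensor (Γ.map (Matrix.GeneralLinearGroup.map ι)) a b t ↔ MTfix S P a b t :=
  ⟨ExDim3, half_dim3, fun _ _ hn hq hd h25 => prime_dim3 hn hq hd h25,
    fun _ _ _ _ _ _ _ H hSD hdom => exE_dim3.main H hSD hdom⟩

end Helper14.Keep.SelfDualDimensions
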